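import Mathlib

/-! Core of a maximal ideal and localization. -/

namespace Pool.Agent.N367.CORE

/-- `J` is a reduction of `I` -/
def IsReduction {S : Type*} [CommRing S] (J I : Ideal S) : Prop :=
  J ≤ I ∧ ∃ n : ℕ, J * I ^ n = I ^ (n + 1)

/-- the core: intersection of all reductions -/
def core {S : Type*} [CommRing S] (I : Ideal S) : Ideal S := sInf {J | IsReduction J I}

theorem IsReduction.pow_le {S : Type*} [CommRing S] {J I : Ideal S} (h : IsReduction J I) :
    ∃ n : ℕ, I ^ n ≤ J := by
  obtain ⟨_, n, hn⟩ := h
  exact ⟨n + 1, hn ▸ Ideal.mul_le_left⟩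

section

variable {A R : Type*} [CommRing A] [CommRing R] [Algebra A R] (P : Ideal A) [hP : P.IsMaximal]
  [IsLocalization.AtPrime R P]

include hP in
theorem primary_of {J : Ideal A} (h1 : J ≤ P) {n : ℕ} (h2 : P ^ n ≤ J) : J.IsPrimary := by
  have hr : J.radical = P := by
    apply le_antisymm
    · calc J.radical ≤ P.radical := Ideal.radical_mono h1
        _ = P := hP.isPrime.isRadical.radical
    · intro x hx
      exact ⟨n, h2 (Ideal.pow_mem_pow hx n)⟩
  exact Ideal.isPrimary_of_isMaximal_radical (hr.symm ▸ hP)

include hP in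
theorem comap_map {J : Ideal A} (h1 : J ≤ P) {n : ℕ} (h2 : P ^ n ≤ J) :
    (J.map (algebraMap A R)).comap (algebraMap A R) = J := by
  refine IsLocalization.under_map_of_isPrimary_disjoint P.primeCompl R (primary_of P h1 h2) ?_
  rw [Set.disjoint_left]
  intro x hx hJ
  exact hx (h1 hJ)

variable [IsLocalRing R]

include hP in
theorem map_max : P.map (algebraMap A R) = IsLocalRing.maximalIdeal R :=
  IsLocalization.AtPrime.map_eq_maximalIdeal P R

include hP in
theorem red_map {J : Ideal A} (h : IsReduction J P) :
    IsReduction (J.map (algebraMap A R)) (IsLocalRing.maximalIdeal R) := by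
  obtain ⟨h1, n, hn⟩ := h
  rw [← map_max (R := R) P]
  refine ⟨Ideal.map_mono h1, n, ?_⟩
  rw [← Ideal.map_pow, ← Ideal.map_mul, hn, Ideal.map_pow]

include hP in
theorem red_comap {J : Ideal R} (h : IsReduction J (IsLocalRing.maximalIdeal R)) :
    IsReduction (J.comap (algebraMap A R)) P := by
  have hcm : P = (IsLocalRing.maximalIdeal R).comap (algebraMap A R) := by
    rw [← map_max (R := R) P]
    exact (comap_map P (le_refl P) (n := 1) (by rw [pow_one])).symm
  obtain ⟨h1, n, hn⟩ := h
  have hle : J.comap (algebraMap A R) ≤ P := by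
    conv_rhs => rw [hcm]
    exact Ideal.comap_mono h1
  have hmc : (J.comap (algebraMap A R)).map (algebraMap A R) = J :=
    IsLocalization.map_under P.primeCompl R J
  have hPJ : P ^ (n + 1) ≤ J.comap (algebraMap A R) := by
    rw [← Ideal.map_le_iff_le_comap, Ideal.map_pow, map_max (R := R) P, ← hn]
    exact Ideal.mul_le_left
  refine ⟨hle, n, ?_⟩
  have e1 := comap_map (R := R) P (J := J.comap (algebraMap A R) * P ^ n)
    (Ideal.mul_le_left.trans hle) (n := n + 1 + n) (by
      rw [pow_add]; exact Ideal.mul_mono_left hPJ)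
  have e2 := comap_map (R := R) P (J := P ^ (n + 1)) (Ideal.pow_le_self (by omega)) (n := n + 1)
    (le_refl _)
  rw [← e1, ← e2, Ideal.map_mul, hmc, Ideal.map_pow, Ideal.map_pow, map_max (R := R) P, hn]

include hP in
/-- the core of a maximal ideal commutes with localization -/
theorem core_localization : core (IsLocalRing.maximalIdeal R) = (core P).map (algebraMap A R) := by
  apply le_antisymm
  · intro x hx
    obtain ⟨⟨a, s⟩, hs⟩ := IsLocalization.surj P.primeCompl x
    simp only at hs
    have ha : a ∈ core P := by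
      unfold core
      rw [Ideal.mem_sInf]
      intro J hJ
      obtain ⟨n, hn⟩ := IsReduction.pow_le hJ
      rw [← comap_map (R := R) P hJ.1 hn, Ideal.mem_comap, ← hs]
      apply Ideal.mul_mem_right
      unfold core at hx
      rw [Ideal.mem_sInf] at hx
      exact hx (red_map P hJ)
    have hu : IsUnit (algebraMap A R s) := IsLocalization.map_units R s
    rw [← Ideal.mul_unit_mem_iff_mem _ hu, hs]
    exact Ideal.mem_map_of_mem _ ha
  · rw [Ideal.map_le_iff_le_comap]
    intro a ha
    rw [Ideal.mem_comap]
    unfold core at ha ⊢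
    rw [Ideal.mem_sInf] at ha ⊢
    intro J hJ
    exact ha (red_comap P hJ)

end

end Pool.Agent.N367.CORE
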