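import Pool.Agent.N367.CORE.Stm

/-! Both readings of the question on the core of the maximal ideal of a localized standard graded
algebra. -/

namespace Pool.Agent.N367.CORE

open Polynomial

universe u v w

section

variable {k : Type u} {A : Type v} [Field k] [CommRing A] [Algebra k A] (𝒜 : ℕ → Submodule k A)
  [GradedAlgebra 𝒜]

theorem mem_Aplus {a : A} : a ∈ Aplus 𝒜 ↔ GradedRing.proj 𝒜 0 a = 0 := by
  unfold Aplus
  exact HomogeneousIdeal.mem_irrelevant_iff 𝒜 a

theorem Aplus_maximal (h : StandardGraded 𝒜) : (Aplus 𝒜).IsMaximal := by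
  have hn := h.nontriv
  rw [Ideal.isMaximal_iff]
  constructor
  · rw [mem_Aplus]
    have h1 : (1 : A) ∈ 𝒜 0 := SetLike.GradedOne.one_mem
    rw [GradedRing.proj_apply, DirectSum.decompose_of_mem_same 𝒜 h1]
    exact one_ne_zero
  · intro J x hJ hx hxJ
    rw [mem_Aplus, GradedRing.proj_apply] at hx
    obtain ⟨c, hc⟩ := h.zero _ ((DirectSum.decompose 𝒜 x) 0).2
    rw [← hc] at hx
    have hc0 : c ≠ 0 := by
      rintro rfl
      exact hx (map_zero _)
    have h2 : x - algebraMap k A c ∈ Aplus 𝒜 := by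
      rw [mem_Aplus, map_sub, GradedRing.proj_apply, GradedRing.proj_apply, hc,
        DirectSum.decompose_coe, DirectSum.of_eq_same, sub_self]
    have h3 : algebraMap k A c ∈ J := by
      have := J.sub_mem hxJ (hJ h2)
      simpa using this
    have h4 : algebraMap k A c⁻¹ * algebraMap k A c = 1 := by
      rw [← map_mul, inv_mul_cancel₀ hc0, map_one]
    rw [← h4]
    exact J.mul_mem_left _ h3

/-- intersection of the homogeneous reductions of `A_+` -/
def hcore : Ideal A := sInf {J | J.IsHomogeneous 𝒜 ∧ IsReduction J (Aplus 𝒜)}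

end

/-- first reading (all reductions): the core commutes with localization -/
theorem localizes (k : Type u) [Field k] (A : Type v) [CommRing A] [Algebra k A]
    (𝒜 : ℕ → Submodule k A) [GradedAlgebra 𝒜] (h : StandardGraded 𝒜) :
    ∃ _ : (Aplus 𝒜).IsMaximal, ∀ (R : Type w) [CommRing R] [Algebra A R] [IsLocalRing R]
      [IsLocalization.AtPrime R (Aplus 𝒜)],
      core (IsLocalRing.maximalIdeal R) = (core (Aplus 𝒜)).map (algebraMap A R) := by
  have hm := Aplus_maximal 𝒜 h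
  exact ⟨hm, fun R _ _ _ _ => core_localization (Aplus 𝒜)⟩

/-- an element with nonzero linear part -/
theorem exists_linear {k : Type u} {A : Type v} [Field k] [CommRing A] [Algebra k A]
    (𝒜 : ℕ → Submodule k A) [GradedAlgebra 𝒜] (hst : StandardGraded 𝒜) {x y : A}
    (h1 : 𝒜 1 = Submodule.span k {x, y}) (hP : Aplus 𝒜 = Ideal.span {x, y})
    (π : A →ₐ[k] k[X]) (hx : π x = X) (hy : π y = 0) {J : Ideal A} (hJ : J.IsHomogeneous 𝒜)
    (hred : IsReduction J (Aplus 𝒜)) : ∃ b : k, x + algebraMap k A b * y ∈ J := by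
  obtain ⟨hle, n, hn⟩ := hred
  -- the power `x ^ (n + 1)` lies in `J * (x, y) ^ n`
  have hxP : x ∈ Aplus 𝒜 := by rw [hP]; exact Ideal.subset_span (by simp)
  have hmem : x ^ (n + 1) ∈ J * Aplus 𝒜 ^ n := by
    rw [hn]; exact Ideal.pow_mem_pow hxP _
  -- pass to `k[X]`
  have hmap : (X : k[X]) ^ (n + 1) ∈ (J.map π.toRingHom) * (Ideal.span {(X : k[X])}) ^ n := by
    have h2 := Ideal.mem_map_of_mem π.toRingHom hmem
    rw [Ideal.map_mul, Ideal.map_pow, hP, Ideal.map_span] at h2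
    have h3 : (π.toRingHom '' {x, y}) = {X, 0} := by
      rw [Set.image_pair]
      change {π x, π y} = _
      rw [hx, hy]
    rw [h3] at h2
    have h4 : Ideal.span ({X, 0} : Set k[X]) = Ideal.span {(X : k[X])} := by
      rw [Set.pair_comm]
      exact Ideal.span_insert_zero
    rw [h4] at h2
    have h5 : π.toRingHom (x ^ (n + 1)) = X ^ (n + 1) := by
      change π (x ^ (n + 1)) = _
      rw [map_pow, hx]
    rw [h5] at h2
    exact h2
  rw [Ideal.span_singleton_pow, mul_comm, Ideal.mem_span_singleton_mul] at hmap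
  obtain ⟨z, hz, hz2⟩ := hmap
  have hzX : z = X := by
    have : (X : k[X]) ^ n * z = X ^ n * X := by rw [hz2, pow_succ]
    exact mul_left_cancel₀ (pow_ne_zero _ X_ne_zero) this
  rw [hzX] at hz
  -- the image of `J` contains `X`; surjectivity of `π`
  have hsurj : Function.Surjective π.toRingHom := by
    intro f
    refine ⟨Polynomial.aeval x f, ?_⟩
    change π (Polynomial.aeval x f) = f
    rw [← Polynomial.aeval_algHom_apply, hx, Polynomial.aeval_X_left_apply]
  obtain ⟨w, hw, hwX⟩ := (Ideal.mem_map_iff_of_surjective _ hsurj).mp hz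
  -- the component of degree one
  have hw1 : ((DirectSum.decompose 𝒜 w) 1 : A) ∈ J := hJ 1 hw
  have hxm : x ∈ 𝒜 1 := by rw [h1]; exact Submodule.subset_span (by simp)
  have hym : y ∈ 𝒜 1 := by rw [h1]; exact Submodule.subset_span (by simp)
  have hwP : w ∈ Ideal.span {x, y} := by rw [← hP]; exact hle hw
  rw [Ideal.mem_span_pair] at hwP
  obtain ⟨p, q, hpq⟩ := hwP
  have e1 : ((DirectSum.decompose 𝒜 w) 1 : A) =
      ((DirectSum.decompose 𝒜 p) 0 : A) * x + ((DirectSum.decompose 𝒜 q) 0 : A) * y := by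
    rw [← hpq, DirectSum.decompose_add, DirectSum.add_apply, Submodule.coe_add,
      DirectSum.coe_decompose_mul_of_right_mem_of_le 𝒜 hxm (le_refl 1),
      DirectSum.coe_decompose_mul_of_right_mem_of_le 𝒜 hym (le_refl 1)]
  obtain ⟨a, ha⟩ := hst.zero _ ((DirectSum.decompose 𝒜 p) 0).2
  obtain ⟨b, hb⟩ := hst.zero _ ((DirectSum.decompose 𝒜 q) 0).2
  rw [← ha, ← hb] at e1
  have hpi : π p = 1 := by
    have h6 : π w = X := hwX
    rw [← hpq, map_add, map_mul, map_mul, hx, hy, mul_zero, add_zero] at h6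
    have : (π p) * X = 1 * X := by rw [h6, one_mul]
    exact mul_right_cancel₀ X_ne_zero this
  have hpp : p - algebraMap k A a ∈ Aplus 𝒜 := by
    rw [mem_Aplus, map_sub, GradedRing.proj_apply, GradedRing.proj_apply, ha,
      DirectSum.decompose_coe, DirectSum.of_eq_same, sub_self]
  rw [hP, Ideal.mem_span_pair] at hpp
  obtain ⟨c, d, hcd⟩ := hpp
  have ha1 : a = 1 := by
    have h7 := congrArg π hcd
    rw [map_add, map_mul, map_mul, hx, hy, map_sub, hpi, mul_zero, add_zero, AlgHom.commutes] at h7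
    have h8 := congrArg (fun f : k[X] => f.coeff 0) h7
    simp at h8
    exact (sub_eq_zero.mp h8.symm).symm
  rw [ha1, map_one, one_mul] at e1
  exact ⟨b, e1 ▸ hw1⟩

/-- the element `x y ^ 2` lies in all homogeneous reductions -/
theorem mem_line {k : Type u} {A : Type v} [Field k] [CommRing A] [Algebra k A] {x y : A}
    (h1 : x ^ 2 * y = 0) (b : k) : x * y ^ 2 ∈ Ideal.span {x + algebraMap k A b * y} := by
  rw [Ideal.mem_span_singleton]
  by_cases hb : b = 0
  · subst hb
    exact ⟨y ^ 2, by rw [map_zero]; ring⟩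
  · set β := algebraMap k A b with hβ
    set γ := algebraMap k A b⁻¹ with hγ
    have hbg : β * γ = 1 := by rw [hβ, hγ, ← map_mul, mul_inv_cancel₀ hb, map_one]
    refine ⟨y ^ 2 + γ * (x - β * y) * y, ?_⟩
    have : (x + β * y) * (y ^ 2 + γ * (x - β * y) * y) =
      x * y ^ 2 + β * y ^ 3 + γ * (x ^ 2 * y) - (β * γ) * β * y ^ 3 := by ring
    rw [this, h1, hbg]
    ring

theorem y_pow {A : Type v} [CommRing A] {x y : A} (h1 : x ^ 2 * y = 0) (j : ℕ) :
    Ideal.span {y} * Ideal.span {x, y} ^ (j + 1) ≤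
      Ideal.span {x * y ^ (j + 1), y ^ (j + 2)} := by
  induction j with
  | zero =>
    rw [Ideal.mul_le]
    intro r hr s hs
    rw [Ideal.mem_span_singleton] at hr
    rw [zero_add, pow_one, Ideal.mem_span_pair] at hs
    obtain ⟨a, rfl⟩ := hr
    obtain ⟨b, c, rfl⟩ := hs
    rw [Ideal.mem_span_pair]
    exact ⟨a * b, a * c, by ring⟩
  | succ j ih =>
    rw [pow_succ, ← mul_assoc]
    refine (Ideal.mul_mono_left ih).trans ?_
    rw [Ideal.mul_le]
    intro r hr s hs
    rw [Ideal.mem_span_pair] at hr hs ⊢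
    obtain ⟨a, b, rfl⟩ := hr
    obtain ⟨c, d, rfl⟩ := hs
    refine ⟨a * d + b * c, b * d, ?_⟩
    have h2 : a * c * y ^ j * (x ^ 2 * y) = 0 := by rw [h1, mul_zero]
    linear_combination (-1 : A) * h2

theorem red_line {A : Type v} [CommRing A] {x y : A} (h1 : x ^ 2 * y = 0) (h5 : y ^ 5 = 0) :
    IsReduction (Ideal.span {x + y ^ 2}) (Ideal.span {x, y}) := by
  have hle : Ideal.span {x + y ^ 2} ≤ Ideal.span {x, y} := by
    rw [Ideal.span_singleton_le_iff_mem, Ideal.mem_span_pair]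
    exact ⟨1, y, by ring⟩
  obtain ⟨m, hm⟩ : ∃ m : ℕ, m = 4 := ⟨4, rfl⟩
  have h0 : ∀ s ∈ Ideal.span {x, y} ^ (m + 1), y * s = 0 := by
    intro s hs
    have h2 : y * s ∈ Ideal.span {x * y ^ (m + 1), y ^ (m + 2)} :=
      y_pow h1 m (Ideal.mul_mem_mul (Ideal.mem_span_singleton_self y) hs)
    have e1 : x * y ^ (m + 1) = 0 := by rw [hm]; norm_num; rw [h5, mul_zero]
    have e2 : y ^ (m + 2) = 0 := by
      have : y ^ (m + 2) = y ^ (m + 1) * y := pow_succ _ _
      rw [this, hm]; norm_num; rw [h5, zero_mul]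
    rw [e1, e2, Ideal.mem_span_pair] at h2
    obtain ⟨a, b, hab⟩ := h2
    rw [← hab, mul_zero, mul_zero, add_zero]
  refine ⟨hle, m + 1, le_antisymm ?_ ?_⟩
  · rw [pow_succ' (Ideal.span {x, y}) (m + 1)]
    exact Ideal.mul_mono_left hle
  · rw [pow_succ' (Ideal.span {x, y}) (m + 1), Ideal.mul_le]
    intro r hr s hs
    rw [Ideal.mem_span_pair] at hr
    obtain ⟨a, b, rfl⟩ := hr
    have hys : y * s = 0 := h0 s hs
    have : (a * x + b * y) * s = (x + y ^ 2) * (a * s) := by
      linear_combination (b - a * y) * hys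
    rw [this]
    exact Ideal.mul_mem_mul (Ideal.mem_span_singleton_self _) (Ideal.mul_mem_left _ _ hs)

theorem homog_fails (hEX : S_EX.{u}) (k : Type u) [Field k] :
    ∃ (A : Type u) (_ : CommRing A) (_ : Algebra k A) (𝒜 : ℕ → Submodule k A) (_ : GradedAlgebra 𝒜),
      StandardGraded 𝒜 ∧ ∃ _ : (Aplus 𝒜).IsMaximal, ∀ (R : Type w) [CommRing R] [Algebra A R]
        [IsLocalRing R] [IsLocalization.AtPrime R (Aplus 𝒜)],
        core (IsLocalRing.maximalIdeal R) ≠ (hcore 𝒜).map (algebraMap A R) := by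
  obtain ⟨A, _, _, 𝒜, _, x, y, hst, hA1, h1, h5, hP, ⟨π, hx, hy⟩, ⟨φ, hφx, hφy⟩⟩ := hEX k
  have hm := Aplus_maximal 𝒜 hst
  refine ⟨A, _, _, 𝒜, _, hst, hm, ?_⟩
  intro R _ _ _ _ heq
  have hX : x * y ^ 2 ∈ hcore 𝒜 := by
    unfold hcore
    rw [Ideal.mem_sInf]
    rintro J ⟨hJ, hred⟩
    obtain ⟨b, hb⟩ := exists_linear 𝒜 hst hA1 hP π hx hy hJ hred
    exact (Ideal.span_singleton_le_iff_mem J).mpr hb (mem_line h1 b)
  have hX2 : algebraMap A R (x * y ^ 2) ∈ core (IsLocalRing.maximalIdeal R) := by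
    rw [heq]; exact Ideal.mem_map_of_mem _ hX
  have hred : IsReduction (Ideal.span {x + y ^ 2}) (Aplus 𝒜) := by
    rw [hP]; exact red_line h1 h5
  have h3 : algebraMap A R (x * y ^ 2) ∈ (Ideal.span {x + y ^ 2}).map (algebraMap A R) := by
    unfold core at hX2
    rw [Ideal.mem_sInf] at hX2
    exact hX2 (red_map (Aplus 𝒜) hred)
  obtain ⟨n, hn⟩ := hred.pow_le
  have h4 : x * y ^ 2 ∈ Ideal.span {x + y ^ 2} := by
    rw [← comap_map (R := R) (Aplus 𝒜) hred.1 hn, Ideal.mem_comap]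
    exact h3
  rw [Ideal.mem_span_singleton] at h4
  obtain ⟨c, hc⟩ := h4
  have h6 := congrArg φ hc
  rw [map_mul, map_mul, map_add, map_pow φ y 2, hφx, hφy] at h6
  have h7 : (Ideal.Quotient.mk (Ideal.span {(X : k[X]) ^ 5})) (X ^ 4) = 0 := by
    rw [map_pow]
    linear_combination (-1 : (k[X] ⧸ Ideal.span {(X : k[X]) ^ 5})) * h6
  rw [Ideal.Quotient.eq_zero_iff_mem, Ideal.mem_span_singleton] at h7
  have h8 := Polynomial.natDegree_le_of_dvd h7 (pow_ne_zero 4 X_ne_zero)
  simp at h8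

end Pool.Agent.N367.CORE
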