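import Pool.Agent.N367.CORE.Loc

/-! Standard graded algebras and their homogeneous maximal ideal. -/

namespace Pool.Agent.N367.CORE

open Polynomial

universe u v

/-- the ideal of elements of positive degree -/
def Aplus {k : Type u} {A : Type v} [Field k] [CommRing A] [Algebra k A] (𝒜 : ℕ → Submodule k A)
    [GradedAlgebra 𝒜] : Ideal A := (HomogeneousIdeal.irrelevant 𝒜).toIdeal

/-- `A` is a standard graded `k`-algebra: `A_0 = k` and `A` is generated by finitely many elements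
of degree one -/
structure StandardGraded {k : Type u} {A : Type v} [Field k] [CommRing A] [Algebra k A]
    (𝒜 : ℕ → Submodule k A) : Prop where
  nontriv : Nontrivial A
  zero : ∀ a ∈ 𝒜 0, ∃ c : k, algebraMap k A c = a
  gen : ∃ s : Finset A, (∀ a ∈ s, a ∈ 𝒜 1) ∧ Algebra.adjoin k (s : Set A) = ⊤

/-- the example `k[x, y] / (x ^ 2 y, y ^ 5)` with its standard grading -/
def S_EX : Prop := ∀ (k : Type u) [Field k], ∃ (A : Type u) (_ : CommRing A) (_ : Algebra k A)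
  (𝒜 : ℕ → Submodule k A) (_ : GradedAlgebra 𝒜) (x y : A), StandardGraded 𝒜 ∧
  𝒜 1 = Submodule.span k {x, y} ∧ x ^ 2 * y = 0 ∧ y ^ 5 = 0 ∧ Aplus 𝒜 = Ideal.span {x, y} ∧
  (∃ π : A →ₐ[k] k[X], π x = X ∧ π y = 0) ∧
  (∃ φ : A →ₐ[k] (k[X] ⧸ Ideal.span {(X : k[X]) ^ 5}), φ x = - (Ideal.Quotient.mk _ X) ^ 2 ∧
    φ y = Ideal.Quotient.mk _ X)

end Pool.Agent.N367.CORE
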